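import Pool.Agent.Helper65.TU.Stmts5
import Pool.Agent.Helper65.TU.Basic

/-!
TU, row RQ3: quotients by reflexive subspaces.
-/

open Set Filter Topology

namespace Pool.Agent.Helper65.TU

universe u

theorem st_RQ3 (h1 : ST_RQ1.{u}) : ST_RQ3.{u} := by
  intro X Z _ _ _ _ a T hT δ hδ H ε hε
  have ha0 : 0 < a := by linarith [hT.one]
  obtain ⟨F, hF, hM⟩ := H (ε / a ^ 2) (by positivity)
  let K1 : Set Z → Set X := fun K => (fun x => a⁻¹ • x) '' {x : X | T x ∈ K ∧ ‖x‖ ≤ a}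
  have hK1 : ∀ K : Set Z, WCpt K → WCpt (K1 K) ∧ K1 K ⊆ Bl X := by
    intro K hK
    refine ⟨(h1 X Z a T hT K hK a).smul a⁻¹, ?_⟩
    rintro _ ⟨x, hx, rfl⟩
    show ‖a⁻¹ • x‖ ≤ 1
    rw [norm_smul, Real.norm_of_nonneg (inv_nonneg.2 ha0.le), inv_mul_le_iff₀ ha0, mul_one]
    exact hx.2
  let Q : X →L[ℝ] Z := a⁻¹ • T
  have hQ : ∀ x, Q x = a⁻¹ • T x := fun x => rfl
  have hQn : ∀ x, ‖Q x‖ ≤ ‖x‖ := by
    intro x
    rw [hQ, norm_smul, Real.norm_of_nonneg (inv_nonneg.2 ha0.le)]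
    calc a⁻¹ * ‖T x‖ ≤ a⁻¹ * (a * ‖x‖) :=
          mul_le_mul_of_nonneg_left (hT.nrm x) (inv_nonneg.2 ha0.le)
      _ = ‖x‖ := by field_simp
  refine ⟨fun K => Q '' (F (K1 K)), fun K hK _ => ?_, fun L hL _ => ?_⟩
  · obtain ⟨h3, h4⟩ := hF _ (hK1 K hK).1 (hK1 K hK).2
    refine ⟨h3.image Q, ?_⟩
    rintro _ ⟨x, hx, rfl⟩
    exact (hQn x).trans (h4 hx)
  · obtain ⟨t, ht⟩ : ∃ t : ℝ, t = δ / 2 := ⟨_, rfl⟩
    obtain ⟨r, hr⟩ : ∃ r : ℝ, r = 1 + t := ⟨_, rfl⟩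
    have ht0 : 0 < t := by rw [ht]; positivity
    have hr0 : 0 < r := by rw [hr]; positivity
    let L1 : Set X := {v | T v ∈ (fun z => a • z) '' L ∧ ‖v‖ ≤ r}
    let L2 : Set X := (fun x => r⁻¹ • x) '' L1
    have hL1 : WCpt L1 := h1 X Z a T hT _ (hL.smul a) r
    have hL2 : WCpt L2 := hL1.smul r⁻¹
    have hL2B : L2 ⊆ Bl X := by
      rintro _ ⟨x, hx, rfl⟩
      show ‖r⁻¹ • x‖ ≤ 1
      rw [norm_smul, Real.norm_of_nonneg (inv_nonneg.2 hr0.le), inv_mul_le_iff₀ hr0, mul_one]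
      exact hx.2
    obtain ⟨M, hM1, hM2⟩ := hM L2 hL2 hL2B
    refine ⟨(a • T) '' M, hM1.image _, fun K hK hKB hN => ?_⟩
    obtain ⟨h2, h2'⟩ := hK1 K hK
    obtain ⟨-, h4⟩ := hF _ h2 h2'
    have hN1 : Near δ (F (K1 K)) L2 := by
      intro x hx
      obtain ⟨l, hl, hxl⟩ := hN (Q x) ⟨x, hx, rfl⟩
      have e0 : T x - a • l = a • (Q x - l) := by
        rw [hQ, smul_sub, smul_smul, mul_inv_cancel₀ ha0.ne', one_smul]
      obtain ⟨w, hw1, hw2⟩ := hT.lift (T x - a • l)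
      have e1 : ‖w‖ ≤ t := by
        refine hw2.trans ?_
        rw [e0, norm_smul, Real.norm_of_nonneg ha0.le]
        calc a * (a * ‖Q x - l‖) ≤ a * (a * (δ / (2 * a ^ 2))) :=
              mul_le_mul_of_nonneg_left (mul_le_mul_of_nonneg_left hxl ha0.le) ha0.le
          _ = t := by rw [ht]; field_simp
      have e4 : ‖x‖ ≤ 1 := h4 hx
      have e5 : ‖x - w‖ ≤ r := by
        rw [hr]
        exact (norm_sub_le x w).trans (add_le_add e4 e1)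
      refine ⟨r⁻¹ • (x - w), ⟨x - w, ⟨⟨l, hl, ?_⟩, e5⟩, rfl⟩, ?_⟩
      · show a • l = T (x - w)
        rw [map_sub, hw1]
        abel
      have e7 : ‖(x - w) - r⁻¹ • (x - w)‖ ≤ t := by
        have e8 : (x - w) - r⁻¹ • (x - w) = (1 - r⁻¹) • (x - w) := by
          rw [sub_smul, one_smul]
        have e9 : 0 ≤ 1 - r⁻¹ := by
          rw [sub_nonneg]
          exact inv_le_one_of_one_le₀ (by rw [hr]; linarith)
        rw [e8, norm_smul, Real.norm_of_nonneg e9]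
        calc (1 - r⁻¹) * ‖x - w‖ ≤ (1 - r⁻¹) * r := mul_le_mul_of_nonneg_left e5 e9
          _ = r - 1 := by field_simp
          _ = t := by rw [hr]; ring
      calc ‖x - r⁻¹ • (x - w)‖ = ‖w + ((x - w) - r⁻¹ • (x - w))‖ := by
            congr 1; abel
        _ ≤ t + t := (norm_add_le _ _).trans (add_le_add e1 e7)
        _ = δ := by rw [ht]; ring
    have hN2 := hM2 _ h2 h2' hN1
    intro z hz
    obtain ⟨x, hx1, hx2⟩ := hT.lift z
    have hz1 : ‖z‖ ≤ 1 := hKB hz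
    have hxa : ‖x‖ ≤ a := hx2.trans (by nlinarith)
    obtain ⟨m, hm, hxm⟩ := hN2 (a⁻¹ • x) ⟨x, ⟨by rw [hx1]; exact hz, hxa⟩, rfl⟩
    refine ⟨(a • T) m, ⟨m, hm, rfl⟩, ?_⟩
    have e3 : z - (a • T) m = a • T (a⁻¹ • x - m) := by
      show z - a • T m = _
      rw [map_sub, map_smul, smul_sub, smul_smul, mul_inv_cancel₀ ha0.ne', one_smul, hx1]
    rw [e3, norm_smul, Real.norm_of_nonneg ha0.le]
    calc a * ‖T (a⁻¹ • x - m)‖ ≤ a * (a * (ε / a ^ 2)) :=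
          mul_le_mul_of_nonneg_left ((hT.nrm _).trans (mul_le_mul_of_nonneg_left hxm ha0.le)) ha0.le
      _ = ε := by field_simp

end Pool.Agent.Helper65.TU
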