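import Pool.Agent.Helper65.TU.Stmts

/-!
TU, row SCH: Schur's theorem in `l_1(Γ)`, by Baire category on `[-1,1]^Γ`.
-/

open Set Filter Topology

namespace Pool.Agent.Helper65.TU

universe v

namespace Sch13

theorem sgn_mul (x : ℝ) : (if 0 ≤ x then (1 : ℝ) else -1) * x = |x| := by
  split_ifs with h
  · rw [one_mul, abs_of_nonneg h]
  · rw [abs_of_neg (not_le.1 h)]; ring

theorem sgn_abs (x : ℝ) : |(if 0 ≤ x then (1 : ℝ) else -1)| ≤ 1 := by
  split_ifs <;> simp

theorem coord {Γ : Type v} (a : ℕ → Γ → ℝ)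
    (h : ∀ s : Γ → ℝ, (∀ g, |s g| ≤ 1) → Tendsto (fun n => ∑' g, s g * a n g) atTop (𝓝 0))
    (g : Γ) : Tendsto (fun n => a n g) atTop (𝓝 0) := by
  classical
  have h1 := h (fun g' => if g' = g then 1 else 0) (fun g' => by split_ifs <;> simp)
  have h2 : (fun n => ∑' g', (if g' = g then (1 : ℝ) else 0) * a n g') = fun n => a n g := by
    funext n
    rw [tsum_eq_single g (fun g' hg' => by simp [hg'])]
    simp
  rwa [h2] at h1

theorem tail {Γ : Type v} (a : ℕ → Γ → ℝ) (hs : ∀ n, Summable fun g => |a n g|)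
    (h : ∀ s : Γ → ℝ, (∀ g, |s g| ≤ 1) → Tendsto (fun n => ∑' g, s g * a n g) atTop (𝓝 0))
    (ε : ℝ) (hε : 0 < ε) : ∃ (I : Finset Γ) (N : ℕ), ∀ n, N ≤ n → ∀ t : Γ → ℝ,
      (∀ g, |t g| ≤ 1) → (∀ g ∈ I, t g = 0) → |∑' g, t g * a n g| ≤ ε := by
  classical
  let E : ℕ → Set (Γ → Set.Icc (-1 : ℝ) 1) := fun N =>
    {s | ∀ n, N ≤ n → |∑' g, (s g : ℝ) * a n g| ≤ ε}
  have hcont : ∀ n, Continuous fun s : Γ → Set.Icc (-1 : ℝ) 1 => ∑' g, (s g : ℝ) * a n g := by
    intro n
    refine continuous_tsum (u := fun g => |a n g|) (fun g => ?_) (hs n) (fun g s => ?_)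
    · exact (continuous_subtype_val.comp (continuous_apply g)).mul continuous_const
    · rw [norm_mul, Real.norm_eq_abs, Real.norm_eq_abs]
      have h1 : |(s g : ℝ)| ≤ 1 := abs_le.2 ⟨(s g).2.1, (s g).2.2⟩
      nlinarith [abs_nonneg (a n g)]
  have hclosed : ∀ N, IsClosed (E N) := by
    intro N
    have h1 : E N = ⋂ n, ⋂ _ : N ≤ n,
        {s : Γ → Set.Icc (-1 : ℝ) 1 | |∑' g, (s g : ℝ) * a n g| ≤ ε} := by
      ext s
      simp [E]
    rw [h1]
    exact isClosed_iInter fun n => isClosed_iInter fun _ =>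
      isClosed_le (hcont n).abs continuous_const
  have hU : ⋃ N, E N = univ := by
    refine eq_univ_of_forall fun s => ?_
    have h1 := h (fun g => (s g : ℝ)) (fun g => abs_le.2 ⟨(s g).2.1, (s g).2.2⟩)
    have h2 := (Metric.tendsto_atTop.1 h1) ε hε
    obtain ⟨N, hN⟩ := h2
    refine mem_iUnion.2 ⟨N, fun n hn => ?_⟩
    have h3 := hN n hn
    rw [Real.dist_eq, sub_zero] at h3
    exact h3.le
  have : Nonempty (Γ → Set.Icc (-1 : ℝ) 1) := ⟨fun _ => ⟨0, by simp⟩⟩
  obtain ⟨N, s0, hs0⟩ := nonempty_interior_of_iUnion_of_closed hclosed hU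
  obtain ⟨I, u, hu, hIu⟩ := isOpen_pi_iff.1 isOpen_interior s0 hs0
  refine ⟨I, N, fun n hn t ht ht0 => ?_⟩
  have key : ∀ c : ℝ, |c| ≤ 1 → |∑' g, (if g ∈ I then (s0 g : ℝ) else c * t g) * a n g| ≤ ε := by
    intro c hc
    have hb : ∀ g, (if g ∈ I then (s0 g : ℝ) else c * t g) ∈ Set.Icc (-1 : ℝ) 1 := by
      intro g
      split_ifs
      · exact (s0 g).2
      · have h1 : |c * t g| ≤ 1 := by
          rw [abs_mul]
          have := ht g
          nlinarith [abs_nonneg c, abs_nonneg (t g)]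
        exact ⟨(abs_le.1 h1).1, (abs_le.1 h1).2⟩
    let w : Γ → Set.Icc (-1 : ℝ) 1 := fun g => ⟨_, hb g⟩
    have hw : w ∈ (I : Set Γ).pi u := by
      intro g hg
      have h1 : w g = s0 g := by
        apply Subtype.ext
        simp only [w]
        rw [if_pos (Finset.mem_coe.1 hg)]
      rw [h1]
      exact (hu g (Finset.mem_coe.1 hg)).2
    exact (interior_subset (hIu hw)) n hn
  have hsum : ∀ c : ℝ, |c| ≤ 1 →
      Summable fun g => (if g ∈ I then (s0 g : ℝ) else c * t g) * a n g := by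
    intro c hc
    refine Summable.of_norm_bounded (hs n) (fun g => ?_)
    rw [norm_mul, Real.norm_eq_abs, Real.norm_eq_abs]
    have h1 : |(if g ∈ I then (s0 g : ℝ) else c * t g)| ≤ 1 := by
      split_ifs
      · exact abs_le.2 ⟨(s0 g).2.1, (s0 g).2.2⟩
      · rw [abs_mul]
        have := ht g
        nlinarith [abs_nonneg c, abs_nonneg (t g)]
    nlinarith [abs_nonneg (a n g)]
  have e1 := key 1 (by simp)
  have e2 := key (-1) (by simp)
  have e3 : (∑' g, (if g ∈ I then (s0 g : ℝ) else 1 * t g) * a n g) -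
      (∑' g, (if g ∈ I then (s0 g : ℝ) else (-1) * t g) * a n g) = 2 * ∑' g, t g * a n g := by
    rw [← (hsum 1 (by simp)).tsum_sub (hsum (-1) (by simp)), ← tsum_mul_left]
    refine tsum_congr fun g => ?_
    by_cases hg : g ∈ I
    · simp [hg, ht0 g hg]
    · simp only [if_neg hg]
      ring
  have e4 := abs_sub (∑' g, (if g ∈ I then (s0 g : ℝ) else 1 * t g) * a n g)
    (∑' g, (if g ∈ I then (s0 g : ℝ) else (-1) * t g) * a n g)
  rw [e3, abs_mul, abs_of_pos (two_pos : (0 : ℝ) < 2)] at e4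
  linarith

end Sch13

theorem st_SCH : ST_SCH.{v} := by
  classical
  intro Γ a hs h
  rw [Metric.tendsto_atTop]
  intro ε hε
  obtain ⟨I, N, hN⟩ := Sch13.tail a hs h (ε / 3) (by positivity)
  have h1 : Tendsto (fun n => ∑ g ∈ I, |a n g|) atTop (𝓝 0) := by
    have h2 := tendsto_finsetSum (f := fun g n => |a n g|) (a := fun _ => (0 : ℝ)) (x := atTop) I
      (fun g _ => by
        have h3 := (Sch13.coord a h g).abs
        rwa [abs_zero] at h3)
    simpa using h2
  obtain ⟨M, hM⟩ := (Metric.tendsto_atTop.1 h1) (ε / 3) (by positivity)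
  refine ⟨max N M, fun n hn => ?_⟩
  have a1 := hM n ((le_max_right _ _).trans hn)
  have a2 := hN n ((le_max_left _ _).trans hn)
    (fun g => if g ∈ I then 0 else (if 0 ≤ a n g then (1 : ℝ) else -1))
    (fun g => by
      by_cases hg : g ∈ I
      · simp [hg]
      · simp only [if_neg hg]
        exact Sch13.sgn_abs _)
    (fun g hg => by simp [hg])
  have e1 : ∀ g, (if g ∈ I then 0 else (if 0 ≤ a n g then (1 : ℝ) else -1)) * a n g =
      if g ∈ I then 0 else |a n g| := by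
    intro g
    by_cases hg : g ∈ I
    · simp [hg]
    · simp only [if_neg hg]
      exact Sch13.sgn_mul _
  rw [tsum_congr e1] at a2
  have s1 : Summable fun g => if g ∈ I then |a n g| else 0 :=
    summable_of_ne_finset_zero (s := I) fun g hg => by simp [hg]
  have s2 : Summable fun g => if g ∈ I then 0 else |a n g| :=
    Summable.of_nonneg_of_le (fun g => by split_ifs <;> simp)
      (fun g => by split_ifs <;> simp) (hs n)
  have e2 : ∑' g, |a n g| = ∑ g ∈ I, |a n g| + ∑' g, (if g ∈ I then 0 else |a n g|) := by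
    have e3 : ∑' g, (if g ∈ I then |a n g| else 0) = ∑ g ∈ I, |a n g| := by
      rw [tsum_eq_sum (s := I) (fun g hg => by simp [hg])]
      exact Finset.sum_congr rfl fun g hg => by simp [hg]
    rw [← e3, ← s1.tsum_add s2]
    refine tsum_congr fun g => ?_
    by_cases hg : g ∈ I <;> simp [hg]
  rw [Real.dist_eq, sub_zero] at a1 ⊢
  have h4 := abs_add_le (∑ g ∈ I, |a n g|) (∑' g, (if g ∈ I then 0 else |a n g|))
  rw [e2]
  linarith

end Pool.Agent.Helper65.TU
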