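import Pool.Agent.Helper65.TU.Stmts4
import Pool.Agent.Helper13.TU.SCH

/-!
TU, row T1: uniform tails of weakly compact sets in an `l_1`-sum (through the scalar Schur theorem).
-/

open Set Filter Topology
open scoped ENNReal

namespace Pool.Agent.Helper65.TU

universe u v

namespace T113

variable {Γ : Type v} {X : Γ → Type u} [∀ g, NormedAddCommGroup (X g)] [∀ g, NormedSpace ℝ (X g)]

theorem summ (x : lp X 1) : Summable fun g => ‖x g‖ := by
  have h := (lp.memℓp x).summable (by simp)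
  simpa using h

theorem norm_eq (x : lp X 1) : ‖x‖ = ∑' g, ‖x g‖ := by
  have h := lp.norm_rpow_eq_tsum (p := 1) (by simp) x
  simpa using h

theorem f_summ (f : ∀ g, X g →L[ℝ] ℝ) (hf : ∀ g, ‖f g‖ ≤ 1) (x : lp X 1) :
    Summable fun g => f g (x g) := by
  refine Summable.of_norm_bounded (summ x) fun g => ?_
  have h := (f g).le_of_opNorm_le (hf g) (x g)
  rwa [one_mul] at h

theorem f_abs (f : ∀ g, X g →L[ℝ] ℝ) (hf : ∀ g, ‖f g‖ ≤ 1) (x : lp X 1) (g : Γ) :
    |f g (x g)| ≤ ‖x g‖ := by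
  have h := (f g).le_of_opNorm_le (hf g) (x g)
  rwa [one_mul] at h

/-- the functional -/
theorem exists_lam (f : ∀ g, X g →L[ℝ] ℝ) (hf : ∀ g, ‖f g‖ ≤ 1) :
    ∃ Λ : lp X 1 →L[ℝ] ℝ, ∀ x, Λ x = ∑' g, f g (x g) := by
  let L : lp X 1 →ₗ[ℝ] ℝ :=
    { toFun := fun x => ∑' g, f g (x g)
      map_add' := by
        intro x y
        rw [← (f_summ f hf x).tsum_add (f_summ f hf y)]
        refine tsum_congr fun g => ?_
        rw [lp.coeFn_add, Pi.add_apply, map_add]
      map_smul' := by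
        intro c x
        rw [RingHom.id_apply, smul_eq_mul, ← tsum_mul_left]
        refine tsum_congr fun g => ?_
        rw [lp.coeFn_smul, Pi.smul_apply, map_smul, smul_eq_mul] }
  refine ⟨L.mkContinuous 1 fun x => ?_, fun x => rfl⟩
  rw [one_mul, norm_eq]
  change ‖∑' g, f g (x g)‖ ≤ _
  refine (norm_tsum_le_tsum_norm (f_summ f hf x).norm).trans ?_
  refine (f_summ f hf x).norm.tsum_le_tsum (fun g => ?_) (summ x)
  exact f_abs f hf x g

end T113

open T113 in
theorem st_T1 (hES : ST_ES.{max u v}) : ST_T1.{u, v} := by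
  classical
  intro Γ X _ _ K hK ε hε
  by_contra hcon
  push Not at hcon
  have step : ∀ F : Finset Γ, ∃ (x : lp X 1) (G : Finset Γ), x ∈ K ∧ Disjoint F G ∧
      ε < ∑ g ∈ G, ‖x g‖ := by
    intro F
    obtain ⟨x, hx, y, hyF, hyx, hy⟩ := hcon F
    rw [norm_eq] at hy
    obtain ⟨G, hG⟩ := ((summ y).hasSum.eventually (lt_mem_nhds hy)).exists
    refine ⟨x, G \ F, hx, Finset.disjoint_sdiff, ?_⟩
    have h1 : ∑ g ∈ G, ‖y g‖ = ∑ g ∈ G \ F, ‖y g‖ := by
      symm
      refine Finset.sum_subset Finset.sdiff_subset fun g hg hg' => ?_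
      have : g ∈ F := by
        by_contra h
        exact hg' (Finset.mem_sdiff.2 ⟨hg, h⟩)
      rw [hyF g this, norm_zero]
    have hG' : ε < ∑ g ∈ G, ‖y g‖ := hG
    rw [h1] at hG'
    exact hG'.trans_le (Finset.sum_le_sum fun g _ => hyx g)
  choose X0 G0 hXK hdis hlt using step
  let F : ℕ → Finset Γ := fun n => Nat.rec ∅ (fun _ A => A ∪ G0 A) n
  have hF : ∀ n, F (n + 1) = F n ∪ G0 (F n) := fun n => rfl
  have hmono : ∀ m n, m < n → G0 (F m) ⊆ F n := by
    intro m n h
    induction n with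
    | zero => omega
    | succ n ih =>
      rw [hF]
      rcases Nat.lt_or_ge m n with h1 | h1
      · exact (ih h1).trans Finset.subset_union_left
      · have : m = n := by omega
        rw [this]
        exact Finset.subset_union_right
  have hpd : ∀ m n g, g ∈ G0 (F m) → g ∈ G0 (F n) → m = n := by
    intro m n g h1 h2
    rcases lt_trichotomy m n with h | h | h
    · exact absurd h2 (Finset.disjoint_left.1 (hdis (F n)) (hmono m n h h1))
    · exact h
    · exact absurd h1 (Finset.disjoint_left.1 (hdis (F m)) (hmono n m h h2))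
  obtain ⟨φ, hφ, z, -, hz⟩ := hES (lp X 1) K hK (fun n => X0 (F n)) (fun n => hXK _)
  -- the blocks of `z` are small
  have hsumF : ∀ N, ∑ n ∈ Finset.range N, ∑ g ∈ G0 (F n), ‖z g‖ = ∑ g ∈ F N, ‖z g‖ := by
    intro N
    induction N with
    | zero => simp [F]
    | succ N ih => rw [Finset.sum_range_succ, ih, hF, Finset.sum_union (hdis (F N))]
  have hc : Tendsto (fun n => ∑ g ∈ G0 (F n), ‖z g‖) atTop (𝓝 0) := by
    have h : Summable fun n => ∑ g ∈ G0 (F n), ‖z g‖ := by
      refine summable_of_sum_range_le (c := ∑' g, ‖z g‖)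
        (fun n => Finset.sum_nonneg fun g _ => norm_nonneg _) fun N => ?_
      rw [hsumF]
      exact (summ z).sum_le_tsum _ fun g _ => norm_nonneg _
    exact h.tendsto_atTop_zero
  -- norming functionals
  have hdual : ∀ (k : ℕ) (g : Γ), ∃ h : X g →L[ℝ] ℝ, ‖h‖ ≤ 1 ∧
      h ((X0 (F (φ k)) - z) g) = ‖(X0 (F (φ k)) - z) g‖ := by
    intro k g
    obtain ⟨h, h1, h2⟩ := exists_dual_vector'' ℝ ((X0 (F (φ k)) - z) g)
    exact ⟨h, h1, by simpa using h2⟩
  choose h hh1 hh2 using hdual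
  let f : ∀ g, X g →L[ℝ] ℝ := fun g =>
    if hg : ∃ k, g ∈ G0 (F (φ k)) then h hg.choose g else 0
  have hf : ∀ g, ‖f g‖ ≤ 1 := by
    intro g
    simp only [f]
    split_ifs with hg
    · exact hh1 _ g
    · simp
  have hfk : ∀ k g, g ∈ G0 (F (φ k)) → f g = h k g := by
    intro k g hg
    have hex : ∃ k, g ∈ G0 (F (φ k)) := ⟨k, hg⟩
    have h1 : hex.choose = k := hφ.injective (hpd _ _ g hex.choose_spec hg)
    simp only [f]
    rw [dif_pos hex, h1]
  let a : ℕ → Γ → ℝ := fun k g => f g ((X0 (F (φ k)) - z) g)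
  have hsch := st_SCH Γ a
    (fun k => Summable.of_nonneg_of_le (fun g => abs_nonneg _)
      (fun g => f_abs f hf (X0 (F (φ k)) - z) g) (summ (X0 (F (φ k)) - z)))
    (fun s hs => by
      have hsf : ∀ g, ‖s g • f g‖ ≤ 1 := by
        intro g
        rw [norm_smul, Real.norm_eq_abs]
        exact mul_le_one₀ (hs g) (norm_nonneg _) (hf g)
      obtain ⟨Λ, hΛ⟩ := exists_lam (fun g => s g • f g) hsf
      have e : (fun k => ∑' g, s g * a k g) = fun k => Λ (X0 (F (φ k))) - Λ z := by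
        funext k
        rw [← map_sub, hΛ]
        refine tsum_congr fun g => ?_
        simp [a]
      rw [e]
      have h1 := (hz Λ).sub_const (Λ z)
      rwa [sub_self] at h1)
  have hge : ∀ k, ε - ∑ g ∈ G0 (F (φ k)), ‖z g‖ ≤ ∑' g, |a k g| := by
    intro k
    have h1 : ∑ g ∈ G0 (F (φ k)), |a k g| ≤ ∑' g, |a k g| :=
      (Summable.of_nonneg_of_le (fun g => abs_nonneg _)
        (fun g => f_abs f hf (X0 (F (φ k)) - z) g) (summ (X0 (F (φ k)) - z))).sum_le_tsum _
          fun g _ => abs_nonneg _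
    have h2 : ∑ g ∈ G0 (F (φ k)), (‖X0 (F (φ k)) g‖ - ‖z g‖) ≤ ∑ g ∈ G0 (F (φ k)), |a k g| := by
      refine Finset.sum_le_sum fun g hg => ?_
      have h3 : |a k g| = ‖(X0 (F (φ k)) - z) g‖ := by
        simp only [a]
        rw [hfk k g hg, hh2, abs_of_nonneg (norm_nonneg _)]
      rw [h3, lp.coeFn_sub, Pi.sub_apply]
      exact norm_sub_norm_le _ _
    rw [Finset.sum_sub_distrib] at h2
    have h4 := hlt (F (φ k))
    linarith
  have hlim : Tendsto (fun k => ε - ∑ g ∈ G0 (F (φ k)), ‖z g‖) atTop (𝓝 (ε - 0)) :=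
    (hc.comp hφ.tendsto_atTop).const_sub ε
  have := le_of_tendsto_of_tendsto' hlim hsch hge
  linarith

end Pool.Agent.Helper65.TU
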